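import Pool.Agent.Work.MP_e17eac_co.Bd.B14
import Pool.Agent.Work.MP_e17eac_co.Bd.B06

/-!
# Item Lev: the level step
-/

namespace Pool.Agent.Work.MP_e17eac_co.AS2

open Finset
open Pool.Agent.Work.MP_e17eac_co.DH
open Pool.Agent.Work.MP_e17eac_co.DH.XSWEEP (GP)
open Pool.Agent.Work.MP_e17eac_co.MX

namespace XLev

theorem N_le (hD : StDeyI) {ι : Type} [Fintype ι] [DecidableEq ι] (K : KSys ι)
    (hx : Function.Injective K.x) (h1 : 1 ≤ Fintype.card ι) : K.N ≤ 16 * (Fintype.card ι) ^ 2 := by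
  have h := hD ι K hx 0 K.N le_rfl
  have hl : (K.lines (Ico 0 K.N)).card ≤ Fintype.card ι := card_le_univ _
  have h2 : K.N ^ 3 ≤ (16 * (Fintype.card ι) ^ 2) ^ 3 := by
    calc K.N ^ 3 = (Ico 0 K.N).card ^ 3 := by simp
      _ ≤ 4096 * (K.lines (Ico 0 K.N)).card ^ 4 := h
      _ ≤ 4096 * (Fintype.card ι) ^ 4 := Nat.mul_le_mul_left _ (Nat.pow_le_pow_left hl 4)
      _ ≤ 4096 * (Fintype.card ι) ^ 6 :=
          Nat.mul_le_mul_left _ (Nat.pow_le_pow_right h1 (by norm_num))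
      _ = (16 * (Fintype.card ι) ^ 2) ^ 3 := by ring
  exact (Nat.pow_le_pow_iff_left (by norm_num)).1 h2

theorem logb (η : ℝ) (hη : 0 < η) : ∃ n1 : ℕ, ∀ n : ℕ, n1 ≤ n → ∀ m : ℕ, m ≤ 16 * n ^ 2 →
    24 * ((Nat.log 2 m : ℝ) + 1) ^ 2 ≤ (n : ℝ) ^ η := by
  have hη2 : 0 < η / 2 := by linarith
  have e1 : ∀ᶠ x : ℝ in Filter.atTop, 50 ≤ x ^ (η / 2) :=
    (tendsto_rpow_atTop hη2).eventually_ge_atTop 50
  have e2 : ∀ᶠ x : ℝ in Filter.atTop, ‖Real.log x‖ ≤ 1 / 30 * ‖x ^ (η / 2)‖ :=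
    (isLittleO_log_rpow_atTop hη2).def (by norm_num)
  have e3 : ∀ᶠ x : ℝ in Filter.atTop, (1 : ℝ) ≤ x := Filter.eventually_ge_atTop 1
  have e := (tendsto_natCast_atTop_atTop (R := ℝ)).eventually (e1.and (e2.and e3))
  obtain ⟨n1, hn1⟩ := Filter.eventually_atTop.1 e
  refine ⟨n1, fun n hn m hm => ?_⟩
  obtain ⟨a1, a2, a3⟩ := hn1 n hn
  have hpos : 0 ≤ (n : ℝ) ^ (η / 2) := by positivity
  rw [Real.norm_of_nonneg (Real.log_nonneg a3), Real.norm_of_nonneg hpos] at a2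
  have hlog2 : (2 : ℝ) / 3 ≤ Real.log 2 := by
    have := Real.log_two_gt_d9
    linarith
  have hm1 : (Nat.log 2 m : ℝ) ≤ 4 + 3 * Real.log n := by
    rcases Nat.eq_zero_or_pos m with h0 | h0
    · rw [h0]
      simp
      have := Real.log_nonneg a3
      linarith
    · have b1 : (Nat.log 2 m : ℝ) ≤ Real.logb 2 m := Real.natLog_le_logb m 2
      have b2 : Real.logb 2 m ≤ Real.logb 2 (16 * (n : ℝ) ^ 2) := by
        apply Real.logb_le_logb_of_le (by norm_num) (by exact_mod_cast h0)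
        exact_mod_cast hm
      have b3 : Real.logb 2 (16 * (n : ℝ) ^ 2) = 4 + 2 * (Real.log n / Real.log 2) := by
        unfold Real.logb
        rw [Real.log_mul (by norm_num) (by positivity), Real.log_pow]
        have : Real.log 16 = 4 * Real.log 2 := by
          rw [show (16 : ℝ) = 2 ^ 4 by norm_num, Real.log_pow]
          norm_num
        rw [this]
        have h2 : Real.log 2 ≠ 0 := by linarith
        field_simp
        push_cast
        ring
      have b4 : Real.log n / Real.log 2 ≤ 3 / 2 * Real.log n := by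
        rw [div_le_iff₀ (by linarith)]
        have := Real.log_nonneg a3
        nlinarith
      linarith
  have hb : (Nat.log 2 m : ℝ) + 1 ≤ (n : ℝ) ^ (η / 2) / 5 := by
    linarith
  have hsq : ((Nat.log 2 m : ℝ) + 1) ^ 2 ≤ ((n : ℝ) ^ (η / 2) / 5) ^ 2 :=
    pow_le_pow_left₀ (by positivity) hb 2
  have hs : ((n : ℝ) ^ (η / 2)) ^ 2 = (n : ℝ) ^ η := by
    rw [← Real.rpow_natCast, ← Real.rpow_mul (by positivity)]
    congr 1
    push_cast
    ring
  have : 0 ≤ (n : ℝ) ^ η := by positivity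
  nlinarith

/-- The density of the edges in the chosen children. -/
theorem dens {α β : Type} [DecidableEq α] [DecidableEq β] (E U : Finset ℕ) (f1 : ℕ → α)
    (f2 : ℕ → β) (kf : ℕ → ℕ) (Λ : ℝ) (hΛ : 1 ≤ Λ) (h1 : RegF Λ E f1) (h2 : RegF Λ E f2)
    (href : ∀ n ∈ E, ∀ m ∈ E, f2 n = f2 m → f1 n = f1 m) (hU : U ⊆ E)
    (hUE : E.card ≤ 2 * U.card)
    (hk : ∀ n ∈ U, kf n ∈ E ∧ f1 (kf n) = f1 n)
    (hkc : ∀ n ∈ U, ∀ m ∈ U, f1 n = f1 m → kf n = kf m)
    (hUf : ∀ n ∈ U, ∀ m ∈ E, f1 m = f1 n → m ∈ U) :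
    (E.card : ℝ) * im E f1 ≤ 2 * Λ ^ 2 * im E f2 *
      ((U.filter (fun n => f2 n = f2 (kf n))).card : ℝ) := by
  classical
  set P' := U.image f1 with hP'
  have s1 : (U.card : ℝ) * im E f1 ≤ P'.card * (Λ * E.card) := by
    have hc : (U.card : ℝ) = ∑ w ∈ P', ((U.filter (fun k => f1 k = w)).card : ℝ) := by
      rw [← Nat.cast_sum]
      congr 1
      exact card_eq_sum_card_image f1 U
    rw [hc, Finset.sum_mul]
    refine le_trans (Finset.sum_le_sum (g := fun _ => Λ * (E.card : ℝ)) ?_) ?_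
    · intro w hw
      obtain ⟨n, hn, rfl⟩ := mem_image.1 hw
      have h3 := (h1 n (hU hn)).2
      refine le_trans ?_ h3
      apply mul_le_mul_of_nonneg_right _ (Nat.cast_nonneg _)
      exact_mod_cast card_le_card (filter_subset_filter _ hU)
    · rw [Finset.sum_const, nsmul_eq_mul]
  have s2 : (P'.card : ℝ) * E.card ≤ Λ * im E f2 *
      ((U.filter (fun n => f2 n = f2 (kf n))).card : ℝ) := by
    have hc : ((U.filter (fun n => f2 n = f2 (kf n))).card : ℝ) = ∑ w ∈ P',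
        (((U.filter (fun n => f2 n = f2 (kf n))).filter (fun k => f1 k = w)).card : ℝ) := by
      rw [← Nat.cast_sum]
      congr 1
      apply card_eq_sum_card_fiberwise
      intro x hx
      exact mem_image_of_mem _ (mem_filter.1 hx).1
    rw [hc, Finset.mul_sum]
    have : (P'.card : ℝ) * E.card = ∑ _w ∈ P', (E.card : ℝ) := by
      rw [Finset.sum_const, nsmul_eq_mul]
    rw [this]
    apply Finset.sum_le_sum
    intro w hw
    obtain ⟨n, hn, rfl⟩ := mem_image.1 hw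
    have h3 := (h2 (kf n) (hk n hn).1).1
    have h4 : E.filter (fun k => f2 k = f2 (kf n)) ⊆
        (U.filter (fun n => f2 n = f2 (kf n))).filter (fun k => f1 k = f1 n) := by
      intro k hk'
      obtain ⟨b1, b2⟩ := mem_filter.1 hk'
      have b3 : f1 k = f1 n := (href k b1 _ (hk n hn).1 b2).trans (hk n hn).2
      have b4 : k ∈ U := hUf n hn k b1 b3
      refine mem_filter.2 ⟨mem_filter.2 ⟨b4, ?_⟩, b3⟩
      rw [hkc k b4 n hn b3]
      exact b2
    have h5 : ((E.filter (fun k => f2 k = f2 (kf n))).card : ℝ) ≤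
        (((U.filter (fun n => f2 n = f2 (kf n))).filter (fun k => f1 k = f1 n)).card : ℝ) := by
      exact_mod_cast card_le_card h4
    have h6 : (0 : ℝ) ≤ im E f2 := Nat.cast_nonneg _
    calc (E.card : ℝ) ≤ Λ * ((E.filter (fun k => f2 k = f2 (kf n))).card : ℝ) * (im E f2 : ℝ) := h3
      _ = Λ * (im E f2 : ℝ) * ((E.filter (fun k => f2 k = f2 (kf n))).card : ℝ) := by ring
      _ ≤ _ := mul_le_mul_of_nonneg_left h5 (by positivity)
  have hUE' : (E.card : ℝ) ≤ 2 * U.card := by exact_mod_cast hUE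
  have h6 : (0 : ℝ) ≤ im E f1 := Nat.cast_nonneg _
  calc (E.card : ℝ) * im E f1 ≤ 2 * U.card * im E f1 := mul_le_mul_of_nonneg_right hUE' h6
    _ = 2 * (U.card * im E f1) := by ring
    _ ≤ 2 * (P'.card * (Λ * E.card)) := by linarith
    _ = 2 * Λ * (P'.card * E.card) := by ring
    _ ≤ 2 * Λ * (Λ * im E f2 * ((U.filter (fun n => f2 n = f2 (kf n))).card : ℝ)) :=
        mul_le_mul_of_nonneg_left s2 (by positivity)
    _ = _ := by ring

/-- Counting labels with many lines each. -/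
theorem labc {α ι : Type} [DecidableEq α] [DecidableEq ι] (E2 F : Finset ℕ) (lab : ℕ → α)
    (a : ℕ → ι) (V : Finset ι) (T : ℝ)
    (h : ∀ n ∈ E2, T ≤ (((F.filter (fun k => lab k = lab n)).image a).card : ℝ))
    (hV : ∀ m ∈ F, lab m ∈ E2.image lab → a m ∈ V)
    (hd : ∀ m ∈ F, ∀ m' ∈ F, lab m ∈ E2.image lab → lab m' ∈ E2.image lab → a m = a m' →
      lab m = lab m') : ((E2.image lab).card : ℝ) * T ≤ V.card := by
  classical
  have hdis : ∀ x ∈ E2.image lab, ∀ y ∈ E2.image lab, x ≠ y →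
      Disjoint ((F.filter (fun k => lab k = x)).image a) ((F.filter (fun k => lab k = y)).image a) := by
    intro x hx y hy hxy
    rw [Finset.disjoint_left]
    intro p hp hq
    obtain ⟨m, hm, rfl⟩ := mem_image.1 hp
    obtain ⟨m', hm', hmm⟩ := mem_image.1 hq
    obtain ⟨b1, b2⟩ := mem_filter.1 hm
    obtain ⟨b3, b4⟩ := mem_filter.1 hm'
    apply hxy
    rw [← b2, ← b4]
    exact hd m b1 m' b3 (b2 ▸ hx) (b4 ▸ hy) hmm.symm
  have hcard := card_biUnion (s := E2.image lab)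
    (t := fun x => (F.filter (fun k => lab k = x)).image a) hdis
  have hsub : (E2.image lab).biUnion (fun x => (F.filter (fun k => lab k = x)).image a) ⊆ V := by
    intro p hp
    obtain ⟨x, hx, hp⟩ := mem_biUnion.1 hp
    obtain ⟨m, hm, rfl⟩ := mem_image.1 hp
    obtain ⟨b1, b2⟩ := mem_filter.1 hm
    exact hV m b1 (b2 ▸ hx)
  have h1 : ((E2.image lab).card : ℝ) * T ≤
      ∑ x ∈ E2.image lab, (((F.filter (fun k => lab k = x)).image a).card : ℝ) := by
    rw [← nsmul_eq_mul, ← Finset.sum_const]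
    apply Finset.sum_le_sum
    intro x hx
    obtain ⟨n, hn, rfl⟩ := mem_image.1 hx
    exact h n hn
  refine le_trans h1 ?_
  rw [← Nat.cast_sum, ← hcard]
  exact_mod_cast card_le_card hsub

theorem regmono {α : Type} [DecidableEq α] {Λ Λ' : ℝ} {E : Finset ℕ} {f : ℕ → α}
    (h : RegF Λ E f) (hl : Λ ≤ Λ') : RegF Λ' E f := by
  intro n hn
  obtain ⟨a1, a2⟩ := h n hn
  constructor
  · refine le_trans a1 ?_
    exact mul_le_mul_of_nonneg_right (mul_le_mul_of_nonneg_right hl (Nat.cast_nonneg _))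
      (Nat.cast_nonneg _)
  · exact le_trans a2 (mul_le_mul_of_nonneg_right hl (Nat.cast_nonneg _))

theorem regul (h1 : StReg) (E : Finset ℕ) (hne : E.Nonempty) {α : Type} [DecidableEq α]
    (f1 f2 : ℕ → α) (Q : ℝ) (hQ : 24 * ((Nat.log 2 E.card : ℝ) + 1) ^ 2 ≤ Q) :
    ∃ E1 ⊆ E, (E.card : ℝ) ≤ Q * E1.card ∧ RegF Q E1 f1 ∧ RegF Q E1 f2 := by
  obtain ⟨E1, hE1, _, hc, hr⟩ := h1 α Bool (fun b => if b then f1 else f2) E hne
  have hcb : Fintype.card Bool = 2 := Fintype.card_bool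
  rw [hcb] at hc hr
  have hl : (0 : ℝ) ≤ (Nat.log 2 E.card : ℝ) := Nat.cast_nonneg _
  refine ⟨E1, hE1, ?_, ?_, ?_⟩
  · refine le_trans hc (mul_le_mul_of_nonneg_right ?_ (Nat.cast_nonneg _))
    nlinarith [sq_nonneg ((Nat.log 2 E.card : ℝ) + 1)]
  · have := hr true
    simp only [if_true] at this
    refine regmono this ?_
    push_cast
    linarith
  · have := hr false
    simp only [Bool.false_eq_true, if_false] at this
    refine regmono this ?_
    push_cast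
    linarith

theorem numdens {n B Q CL CU e1 e3 i1 i2 : ℝ} {D g : ℕ} (hn : 1 ≤ n) (hB : 1 ≤ B) (hQ : 1 ≤ Q)
    (hCL : 1 ≤ CL) (hCU : 1 ≤ CU) (hC : 2 * CL * CU ≤ Q) (he1 : 0 ≤ e1) (he3 : 0 ≤ e3)
    (h0 : e1 * i1 ≤ 2 * Q ^ 2 * i2 * e3)
    (h1 : n * B ^ ((1 : ℝ) / 4) ≤ CL * (Q ^ (D + 1)) ^ 9 * i1)
    (h2 : i2 ≤ CU * n * (B * Q ^ g) ^ ((1 : ℝ) / 4)) :
    e1 ≤ Q ^ (9 * (D + 1) + 3 + g) * e3 := by
  have hBp : 0 < B ^ ((1 : ℝ) / 4) := by positivity
  have hq : (B * Q ^ g) ^ ((1 : ℝ) / 4) ≤ B ^ ((1 : ℝ) / 4) * Q ^ g := by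
    rw [Real.mul_rpow (by positivity) (by positivity)]
    apply mul_le_mul_of_nonneg_left _ hBp.le
    have h1' : (1 : ℝ) ≤ Q ^ g := one_le_pow₀ hQ
    calc (Q ^ g) ^ ((1 : ℝ) / 4) ≤ (Q ^ g) ^ (1 : ℝ) :=
          Real.rpow_le_rpow_of_exponent_le h1' (by norm_num)
      _ = Q ^ g := Real.rpow_one _
  have hi2 : i2 ≤ CU * n * (B ^ ((1 : ℝ) / 4) * Q ^ g) :=
    le_trans h2 (mul_le_mul_of_nonneg_left hq (by positivity))
  have key : e1 * (n * B ^ ((1 : ℝ) / 4)) ≤
      (Q ^ (9 * (D + 1) + 3 + g) * e3) * (n * B ^ ((1 : ℝ) / 4)) := by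
    calc e1 * (n * B ^ ((1 : ℝ) / 4)) ≤ e1 * (CL * (Q ^ (D + 1)) ^ 9 * i1) :=
          mul_le_mul_of_nonneg_left h1 he1
      _ = CL * (Q ^ (D + 1)) ^ 9 * (e1 * i1) := by ring
      _ ≤ CL * (Q ^ (D + 1)) ^ 9 * (2 * Q ^ 2 * i2 * e3) :=
          mul_le_mul_of_nonneg_left h0 (by positivity)
      _ = (CL * (Q ^ (D + 1)) ^ 9 * 2 * Q ^ 2 * e3) * i2 := by ring
      _ ≤ (CL * (Q ^ (D + 1)) ^ 9 * 2 * Q ^ 2 * e3) * (CU * n * (B ^ ((1 : ℝ) / 4) * Q ^ g)) :=
          mul_le_mul_of_nonneg_left hi2 (by positivity)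
      _ = (2 * CL * CU) * ((Q ^ (D + 1)) ^ 9 * Q ^ 2 * Q ^ g * e3 * (n * B ^ ((1 : ℝ) / 4))) := by
          ring
      _ ≤ Q * ((Q ^ (D + 1)) ^ 9 * Q ^ 2 * Q ^ g * e3 * (n * B ^ ((1 : ℝ) / 4))) :=
          mul_le_mul_of_nonneg_right hC (by positivity)
      _ = (Q ^ (9 * (D + 1) + 3 + g) * e3) * (n * B ^ ((1 : ℝ) / 4)) := by
          rw [← pow_mul]
          ring
  exact le_of_mul_le_mul_right key (by positivity)

end XLev

open XLev in
set_option maxHeartbeats 4000000 in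
theorem I_Lev (h1 : StReg) (h2 : StDeyI) (h3 : StMc) (h4 : StUp) (h5 : StLow) (h6 : StGP)
    (h7 : StZero) (h8 : StAnn) (h9 : StCrowd) (h11 : StUD) : StLev := by
  classical
  obtain ⟨CU, hCU, h4⟩ := h4
  obtain ⟨CL, hCL, h5⟩ := h5
  obtain ⟨CG, h6⟩ := h6
  obtain ⟨CZ, h7⟩ := h7
  obtain ⟨CA, h8⟩ := h8
  obtain ⟨Q0, h9⟩ := h9
  refine ⟨2 * CG + 3 * CZ + 2 * CA + 100, fun η D hη => ?_⟩
  obtain ⟨mG, h6⟩ := h6 η (D + 1) hη
  obtain ⟨mZ, h7⟩ := h7 η (D + 2) hη
  obtain ⟨mA, h8⟩ := h8 η (D + 1) hη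
  obtain ⟨mL, hmL⟩ := logb η hη
  obtain ⟨mQ, hmQ⟩ : ∃ m1 : ℕ, ∀ n : ℕ, m1 ≤ n → 16 + (Q0 : ℝ) + 2 * CL * CU ≤ (n : ℝ) ^ η := by
    have := (tendsto_rpow_atTop hη).comp (tendsto_natCast_atTop_atTop (R := ℝ))
    obtain ⟨m1, h⟩ := Filter.eventually_atTop.1 (this.eventually_ge_atTop (16 + Q0 + 2 * CL * CU))
    exact ⟨m1, fun n hn => h n hn⟩
  refine ⟨max (max mG mZ) (max (max mA mL) (max mQ 1)), ?_⟩
  intro ι _ _ K hx hgp hn0 Q hQη hQN B g hB hg hBQ E hE hEN
  have hnG : mG ≤ Fintype.card ι := le_trans (le_trans (le_max_left _ _) (le_max_left _ _)) hn0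
  have hnZ : mZ ≤ Fintype.card ι := le_trans (le_trans (le_max_right _ _) (le_max_left _ _)) hn0
  have hnA : mA ≤ Fintype.card ι := le_trans (le_trans (le_trans (le_max_left _ _)
    (le_max_left _ _)) (le_max_right _ _)) hn0
  have hnL : mL ≤ Fintype.card ι := le_trans (le_trans (le_trans (le_max_right _ _)
    (le_max_left _ _)) (le_max_right _ _)) hn0
  have hnQ : mQ ≤ Fintype.card ι := le_trans (le_trans (le_trans (le_max_left _ _)
    (le_max_right _ _)) (le_max_right _ _)) hn0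
  have hn1 : 1 ≤ Fintype.card ι := le_trans (le_trans (le_trans (le_max_right _ _)
    (le_max_right _ _)) (le_max_right _ _)) hn0
  set n := Fintype.card ι with hn
  set C0 := 2 * CG + 3 * CZ + 2 * CA + 100 with hC0
  have hn1R : (1 : ℝ) ≤ n := by exact_mod_cast hn1
  have hQR : 16 + (Q0 : ℝ) + 2 * CL * CU ≤ (Q : ℝ) := le_trans (hmQ _ hnQ) hQη
  have hCC : 1 ≤ CL * CU := by nlinarith
  have hQ0R : (0 : ℝ) ≤ Q0 := Nat.cast_nonneg _
  have hQ16 : (16 : ℝ) ≤ Q := by nlinarith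
  have hQ16' : 16 ≤ Q := by exact_mod_cast hQ16
  have hQQ0 : Q0 ≤ Q := by
    have : (Q0 : ℝ) ≤ Q := by nlinarith
    exact_mod_cast this
  have hQC : 2 * CL * CU ≤ Q := by linarith
  have hQ1 : 1 ≤ Q := by omega
  have hQ1R : (1 : ℝ) ≤ Q := by linarith
  have hBR : (1 : ℝ) ≤ B := by exact_mod_cast hB
  -- `n ≤ Q * N`
  have hnQN : n ≤ Q * K.N := by
    have : (n : ℝ) ≤ Q * K.N := by
      refine le_trans ?_ hQN
      calc (n : ℝ) = (n : ℝ) ^ (1 : ℝ) := (Real.rpow_one _).symm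
        _ ≤ (n : ℝ) ^ ((4 : ℝ) / 3) := Real.rpow_le_rpow_of_exponent_le hn1R (by norm_num)
    exact_mod_cast this
  have hN1 : 1 ≤ K.N := by
    by_contra h
    have : K.N = 0 := by omega
    rw [this] at hnQN
    omega
  have hEne : E.Nonempty := by
    rw [nonempty_iff_ne_empty]
    intro h
    rw [h] at hEN
    simp at hEN
    omega
  have hexp : ∀ e : ℕ, e ≤ C0 * (g + D + 1) → B * Q ^ e ≤ n := fun e he =>
    le_trans (Nat.mul_le_mul_left _ (Nat.pow_le_pow_right hQ1 he)) hBQ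
  have hBgN : B * Q ^ g ≤ K.N := by
    have h' := hexp (g + 1) (by rw [hC0]; nlinarith)
    have h'' : Q * (B * Q ^ g) ≤ Q * K.N := by
      calc Q * (B * Q ^ g) = B * Q ^ (g + 1) := by ring
        _ ≤ n := h'
        _ ≤ Q * K.N := hnQN
    exact Nat.le_of_mul_le_mul_left h'' (by omega)
  have hQg1 : 1 ≤ Q ^ g := Nat.one_le_pow _ _ (by omega)
  have hBN : B ≤ K.N := le_trans (Nat.le_mul_of_pos_right _ (by omega)) hBgN
  have hcardE : E.card ≤ 16 * n ^ 2 := by
    refine le_trans ?_ (N_le h2 K hx hn1)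
    simpa using card_le_card hE
  -- cells
  have hc := (h3 ι K B (by omega)).1
  have hdiv := (h3 ι K B (by omega)).2 (Q ^ g) (by omega)
  have hcp := (h3 ι K (B * Q ^ g) (Nat.mul_pos (by omega) (by omega))).1
  set c := mc K B with hcdef
  set cp := mc K (B * Q ^ g) with hcpdef
  have href0 : ∀ i j, cp i = cp j → c i = c j := by
    intro i j hij
    rw [← hdiv i, ← hdiv j, hij]
  have href : Ref K c cp := fun i j _ _ hij => href0 i j hij
  -- regular subset
  obtain ⟨E1, hE1, hE1c, hr1, hr2⟩ := regul h1 E hEne (fun i => (c i, K.a i))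
    (fun i => (cp i, K.a i)) (Q : ℝ) (le_trans (hmL n hnL _ hcardE) hQη)
  have hE1c' : E.card ≤ Q * E1.card := by exact_mod_cast hE1c
  have hE1N : K.N ≤ Q ^ (D + 1) * E1.card := by
    calc K.N ≤ Q ^ D * E.card := hEN
      _ ≤ Q ^ D * (Q * E1.card) := Nat.mul_le_mul_left _ hE1c'
      _ = Q ^ (D + 1) * E1.card := by ring
  have hE1r : E1 ⊆ range K.N := hE1.trans hE
  -- good pairs
  have hgG : Q ^ (CG * (D + 1 + 1)) ≤ Q ^ g := by
    apply Nat.pow_le_pow_right hQ1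
    refine le_trans ?_ hg
    rw [hC0]
    nlinarith
  have hF0 : Q * (E1.filter (fun i => ¬ HasGood K c cp Q E1 i)).card ≤ E1.card :=
    h6 ι K hx hgp hnG Q hQη hQN B (Q ^ g) hB hgG hBgN c cp hc hcp href E1 hE1r hE1N _
      (filter_subset _ _) (fun i hi => (mem_filter.1 hi).2)
  have hch : ∀ (p : ι) (z : ℕ), ∃ kl : ℕ × ℕ,
      (∃ k ∈ E1, ∃ l ∈ E1, K.a k = p ∧ c k = z ∧ GoodP K c cp Q k l) →
      (kl.1 ∈ E1 ∧ kl.2 ∈ E1 ∧ K.a kl.1 = p ∧ c kl.1 = z ∧ GoodP K c cp Q kl.1 kl.2) := by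
    intro p z
    by_cases h : ∃ k ∈ E1, ∃ l ∈ E1, K.a k = p ∧ c k = z ∧ GoodP K c cp Q k l
    · obtain ⟨k, hk, l, hl, h⟩ := h
      exact ⟨(k, l), fun _ => ⟨hk, hl, h⟩⟩
    · exact ⟨(0, 0), fun h' => absurd h' h⟩
  choose kl hkl using hch
  set kk : ι → ℕ → ℕ := fun p z => (kl p z).1 with hkk
  set ll : ι → ℕ → ℕ := fun p z => (kl p z).2 with hll
  have hdat : ∀ i ∈ E1, HasGood K c cp Q E1 i →
      kk (K.a i) (c i) ∈ E1 ∧ ll (K.a i) (c i) ∈ E1 ∧
        PD K c cp Q kk ll (K.a i) (c i) := by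
    intro i hi hG
    obtain ⟨k, hk, l, hl, b1, b2, b3⟩ := hG
    obtain ⟨d1, d2, d3, d4, d5, d6, d7, d8⟩ := hkl (K.a i) (c i) ⟨k, hk, l, hl, b1, b2, b3⟩
    refine ⟨d1, d2, ⟨mem_range.1 (hE1r d1), mem_range.1 (hE1r d2), d3, d5 ▸ d3, d4, d6 ▸ d4, d7, d8⟩⟩
  have hHG : ∀ i j, K.a i = K.a j → c i = c j → HasGood K c cp Q E1 i → HasGood K c cp Q E1 j := by
    intro i j ha hcc hG
    obtain ⟨k, hk, l, hl, b1, b2, b3⟩ := hG
    exact ⟨k, hk, l, hl, b1.trans ha, b2.trans hcc, b3⟩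
  -- nonnegativity of the radius
  have hdn : ∀ i ∈ E1, HasGood K c cp Q E1 i → 0 ≤ dln K B g Q kk ll i := by
    intro i hiE hG
    obtain ⟨d1, d2, hpd⟩ := hdat i hiE hG
    have hki := hpd.kN
    have hlo : lo cp (kk (K.a i) (c i)) ≤ kk (K.a i) (c i) := Nat.sInf_le rfl
    have hhi : kk (K.a i) (c i) ≤ hi K cp (ll (K.a i) (c i)) := by
      have hlt : kk (K.a i) (c i) < ll (K.a i) (c i) := by
        by_contra hcon
        push Not at hcon
        have := hcp.mono _ _ hcon hki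
        exact absurd hpd.lt (by omega)
      refine le_trans hlt.le ?_
      unfold hi
      exact Finset.le_sup (f := id) (mem_filter.2 ⟨mem_range.2 hpd.lN, rfl⟩)
    obtain ⟨u1, _, u3, _⟩ := h11 ι K (K.a i) (lo cp (kk (K.a i) (c i)))
      (hi K cp (ll (K.a i) (c i))) (le_trans hlo hhi)
    have e : K.h (kk (K.a i) (c i)) = K.ht (K.a i) (K.t (kk (K.a i) (c i))) := by
      unfold KSys.h
      rw [hpd.ak]
    have v1 := u1 _ hlo hhi
    have v2 := u3 _ hlo hhi
    rw [e, sub_self] at v1 v2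
    exact le_min v1 v2
  -- the sets
  set Fg := E1.filter (fun i => HasGood K c cp Q E1 i ∧ 0 < dln K B g Q kk ll i) with hFg
  set few : ℕ → Prop := fun i => (Q : ℝ) ^ (CA * (g + (D + 1) + 1)) * (B : ℝ) ^ ((3 : ℝ) / 4) *
    (((Fg.filter (fun k => lbn K B g Q kk ll k = lbn K B g Q kk ll i)).image K.a).card : ℝ) ≤ n
    with hfew
  set cr : ℕ → Prop := fun i => (Q : ℝ) ^ (D + 2) * n <
    ((vf K c (c i)).card : ℝ) * (B : ℝ) ^ ((3 : ℝ) / 4) with hcr
  set U := Fg.filter (fun i => ¬ few i ∧ ¬ cr i) with hU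
  have hlbn : ∀ i j, K.a i = K.a j → c i = c j → lbn K B g Q kk ll i = lbn K B g Q kk ll j := by
    intro i j ha hcc
    unfold lbn
    rw [← hcdef, ha, hcc]
  have hdln : ∀ i j, K.a i = K.a j → c i = c j → dln K B g Q kk ll i = dln K B g Q kk ll j := by
    intro i j ha hcc
    unfold dln
    rw [← hcdef, ha, hcc]
  have hlbc : ∀ i j, lbn K B g Q kk ll i = lbn K B g Q kk ll j → c i = c j := by
    intro i j h
    exact congrArg (fun x => x.1.1) h
  have hF1 : Q * (Fg.filter few).card ≤ E1.card := by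
    refine h8 ι K hx hgp hnA Q hQη hQN B g hB (hexp _ (by rw [hC0]; nlinarith)) E1 hE1r hE1N hr2
      kk ll (Fg.filter few) ((filter_subset _ _).trans (filter_subset _ _)) ?_ ?_
    · intro i hi
      obtain ⟨a1, a2, a3⟩ := mem_filter.1 (mem_filter.1 hi).1
      obtain ⟨d1, d2, hpd⟩ := hdat i a1 a2
      exact ⟨hpd, d1, d2, a3⟩
    · intro i hi
      have hi2 : few i := (mem_filter.1 hi).2
      refine le_trans ?_ hi2
      apply mul_le_mul_of_nonneg_left _ (by positivity)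
      exact_mod_cast card_le_card (image_subset_image (filter_subset_filter _ (filter_subset _ _)))
  have hF2 : Q * (E1.filter (fun i => HasGood K c cp Q E1 i ∧ ¬ 0 < dln K B g Q kk ll i)).card ≤
      E1.card := by
    have h' := h7 ι K hx hgp hnZ Q hQη hQN B g hB (hexp _ (by rw [hC0]; nlinarith))
      (E1.filter (fun i => HasGood K c cp Q E1 i ∧ ¬ 0 < dln K B g Q kk ll i))
      ((filter_subset _ _).trans hE1r) kk ll (by
        intro i hi
        obtain ⟨a1, a2, a3⟩ := mem_filter.1 hi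
        exact ⟨(hdat i a1 a2).2.2, le_antisymm (not_lt.1 a3) (hdn i a1 a2)⟩)
    have h'' : Q ^ (D + 1) * (Q * (E1.filter (fun i => HasGood K c cp Q E1 i ∧
        ¬ 0 < dln K B g Q kk ll i)).card) ≤ Q ^ (D + 1) * E1.card := by
      refine le_trans (le_of_eq ?_) (le_trans h' hE1N)
      ring
    exact Nat.le_of_mul_le_mul_left h'' (Nat.pow_pos (by omega))
  have hF3 : Q * ((range K.N).filter cr).card ≤ E1.card := by
    have h' := h9 ι K hx hgp Q (D + 2) B hQQ0 (by omega) hB hBN c hc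
    have h'' : Q ^ (D + 1) * (Q * ((range K.N).filter cr).card) ≤ Q ^ (D + 1) * E1.card := by
      refine le_trans (le_of_eq ?_) (le_trans h' hE1N)
      ring
    exact Nat.le_of_mul_le_mul_left h'' (Nat.pow_pos (by omega))
  have hE1U : E1.card ≤ 2 * U.card := by
    have hsub : E1 ⊆ U ∪ ((E1.filter (fun i => ¬ HasGood K c cp Q E1 i)) ∪
        ((Fg.filter few) ∪ ((E1.filter (fun i => HasGood K c cp Q E1 i ∧
          ¬ 0 < dln K B g Q kk ll i)) ∪ ((range K.N).filter cr)))) := by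
      intro i hi
      by_cases b1 : HasGood K c cp Q E1 i
      · by_cases b2 : 0 < dln K B g Q kk ll i
        · have b3 : i ∈ Fg := mem_filter.2 ⟨hi, b1, b2⟩
          by_cases b4 : few i
          · exact mem_union_right _ (mem_union_right _ (mem_union_left _
              (mem_filter.2 ⟨b3, b4⟩)))
          · by_cases b5 : cr i
            · exact mem_union_right _ (mem_union_right _ (mem_union_right _ (mem_union_right _
                (mem_filter.2 ⟨hE1r hi, b5⟩))))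
            · exact mem_union_left _ (mem_filter.2 ⟨b3, b4, b5⟩)
        · exact mem_union_right _ (mem_union_right _ (mem_union_right _ (mem_union_left _
            (mem_filter.2 ⟨hi, b1, b2⟩))))
      · exact mem_union_right _ (mem_union_left _ (mem_filter.2 ⟨hi, b1⟩))
    have hcd := card_le_card hsub
    have k1 := card_union_le U ((E1.filter (fun i => ¬ HasGood K c cp Q E1 i)) ∪
        ((Fg.filter few) ∪ ((E1.filter (fun i => HasGood K c cp Q E1 i ∧
          ¬ 0 < dln K B g Q kk ll i)) ∪ ((range K.N).filter cr))))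
    have k2 := card_union_le (E1.filter (fun i => ¬ HasGood K c cp Q E1 i))
        ((Fg.filter few) ∪ ((E1.filter (fun i => HasGood K c cp Q E1 i ∧
          ¬ 0 < dln K B g Q kk ll i)) ∪ ((range K.N).filter cr)))
    have k3 := card_union_le (Fg.filter few) ((E1.filter (fun i => HasGood K c cp Q E1 i ∧
          ¬ 0 < dln K B g Q kk ll i)) ∪ ((range K.N).filter cr))
    have k4 := card_union_le (E1.filter (fun i => HasGood K c cp Q E1 i ∧
          ¬ 0 < dln K B g Q kk ll i)) ((range K.N).filter cr)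
    have j0' : 16 * (E1.filter (fun i => ¬ HasGood K c cp Q E1 i)).card ≤ E1.card :=
      le_trans (Nat.mul_le_mul_right _ hQ16') hF0
    have j1' : 16 * (Fg.filter few).card ≤ E1.card :=
      le_trans (Nat.mul_le_mul_right _ hQ16') hF1
    have j2' : 16 * (E1.filter (fun i => HasGood K c cp Q E1 i ∧
          ¬ 0 < dln K B g Q kk ll i)).card ≤ E1.card :=
      le_trans (Nat.mul_le_mul_right _ hQ16') hF2
    have j3' : 16 * ((range K.N).filter cr).card ≤ E1.card :=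
      le_trans (Nat.mul_le_mul_right _ hQ16') hF3
    omega
  have hUE1 : U ⊆ E1 := (filter_subset _ _).trans (filter_subset _ _)
  have hUdat : ∀ i ∈ U, i ∈ E1 ∧ HasGood K c cp Q E1 i ∧ 0 < dln K B g Q kk ll i ∧ ¬ few i ∧
      ¬ cr i := by
    intro i hi
    obtain ⟨a1, a2, a3⟩ := mem_filter.1 hi
    obtain ⟨a4, a5, a6⟩ := mem_filter.1 a1
    exact ⟨a4, a5, a6, a2, a3⟩
  -- density
  have hd := dens E1 U (fun i => (c i, K.a i)) (fun i => (cp i, K.a i))
    (fun i => kk (K.a i) (c i)) (Q : ℝ) hQ1R hr1 hr2 (by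
      intro i _ j _ hij
      simp only [Prod.mk.injEq] at hij ⊢
      exact ⟨href0 i j hij.1, hij.2⟩) hUE1 hE1U (by
      intro i hi
      obtain ⟨a1, a2, _⟩ := hUdat i hi
      obtain ⟨d1, d2, hpd⟩ := hdat i a1 a2
      refine ⟨d1, ?_⟩
      simp only [Prod.mk.injEq]
      exact ⟨hpd.ck, hpd.ak⟩) (by
      intro i _ j _ hij
      simp only [Prod.mk.injEq] at hij
      simp only [hij.1, hij.2]) (by
      intro i hi j hj hij
      simp only [Prod.mk.injEq] at hij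
      obtain ⟨a1, a2, a3, a4, a5⟩ := hUdat i hi
      refine mem_filter.2 ⟨mem_filter.2 ⟨hj, hHG i j hij.2.symm hij.1.symm a2, ?_⟩, ?_, ?_⟩
      · rw [hdln j i hij.2 hij.1]
        exact a3
      · intro hf
        apply a4
        simp only [hfew] at hf ⊢
        rw [hlbn j i hij.2 hij.1] at hf
        exact hf
      · intro hf
        apply a5
        simp only [hcr] at hf ⊢
        rw [hij.1] at hf
        exact hf)
  have hlow := (h5 ι K hx hgp B c hB hBN hc E1 hE1r ((Q : ℝ) ^ (D + 1)) (one_le_pow₀ hQ1R)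
    (by exact_mod_cast hE1N) (by
      refine le_trans hQN (mul_le_mul_of_nonneg_right ?_ (Nat.cast_nonneg _))
      calc (Q : ℝ) = (Q : ℝ) ^ 1 := (pow_one _).symm
        _ ≤ (Q : ℝ) ^ (D + 1) := pow_le_pow_right₀ hQ1R (by omega))).1 false
  have hup := (h4 ι K hx hgp (B * Q ^ g) cp hcp E1 hE1r).1 false
  have hnd := numdens (n := (n : ℝ)) (B := (B : ℝ)) (Q := (Q : ℝ)) (D := D) (g := g) hn1R hBR hQ1R
    hCL hCU hQC (Nat.cast_nonneg _) (Nat.cast_nonneg _) hd hlow (by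
      have := hup
      push_cast at this
      exact this)
  set E2 := U.filter (fun i => cp i = cp (kk (K.a i) (c i)) ∨ cp i = cp (ll (K.a i) (c i))) with hE2
  have hE32 : (U.filter (fun i => (cp i, K.a i) = (cp (kk (K.a i) (c i)),
      K.a (kk (K.a i) (c i))))).card ≤ E2.card := by
    apply card_le_card
    intro i hi
    obtain ⟨a1, a2⟩ := mem_filter.1 hi
    exact mem_filter.2 ⟨a1, Or.inl (congrArg Prod.fst a2)⟩
  refine ⟨E2, (filter_subset _ _).trans (hUE1.trans hE1), kk, ll, ?_, ?_, ?_⟩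
  · -- density
    have h' : E1.card ≤ Q ^ (9 * (D + 1) + 3 + g) * (U.filter (fun i => (cp i, K.a i) =
        (cp (kk (K.a i) (c i)), K.a (kk (K.a i) (c i))))).card := by
      exact_mod_cast hnd
    calc K.N ≤ Q ^ (D + 1) * E1.card := hE1N
      _ ≤ Q ^ (D + 1) * (Q ^ (9 * (D + 1) + 3 + g) * E2.card) :=
          Nat.mul_le_mul_left _ (le_trans h' (Nat.mul_le_mul_left _ hE32))
      _ = Q ^ (D + 1 + (9 * (D + 1) + 3 + g)) * E2.card := by rw [pow_add]; ring
      _ ≤ Q ^ (C0 * (g + D + 1)) * E2.card := by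
          apply Nat.mul_le_mul_right
          apply Nat.pow_le_pow_right hQ1
          rw [hC0]
          nlinarith
  · refine ⟨?_, ?_, ?_, ?_⟩
    · intro i hi
      obtain ⟨a1, a2, _⟩ := hUdat i (mem_filter.1 hi).1
      exact (hdat i a1 a2).2.2
    · intro i hi
      exact (hUdat i (mem_filter.1 hi).1).2.2.1
    · intro i hi
      exact (mem_filter.1 hi).2
    · intro i hi
      obtain ⟨b1, b2, b3, b4, b5⟩ := hUdat i (mem_filter.1 hi).1
      have hT : (0 : ℝ) < (Q : ℝ) ^ (CA * (g + (D + 1) + 1)) * (B : ℝ) ^ ((3 : ℝ) / 4) := by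
        positivity
      have hlab := labc (E2.filter (fun k => c k = c i)) Fg (lbn K B g Q kk ll) K.a
        (vf K c (c i)) ((n : ℝ) / ((Q : ℝ) ^ (CA * (g + (D + 1) + 1)) * (B : ℝ) ^ ((3 : ℝ) / 4)))
        (by
          intro j hj
          obtain ⟨_, _, _, e4, _⟩ := hUdat j (mem_filter.1 (mem_filter.1 hj).1).1
          rw [div_le_iff₀ hT]
          have := not_le.1 e4
          linarith) (by
          intro j hj hjl
          obtain ⟨m, hm, hm'⟩ := mem_image.1 hjl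
          have e1 : c j = c i := (hlbc _ _ hm').symm.trans (mem_filter.1 hm).2
          unfold vf KSys.lines
          apply mem_union_left
          exact mem_image_of_mem _ (mem_filter.2 ⟨hE1r (mem_filter.1 hj).1, e1⟩)) (by
          intro j hj j' hj' hjl hjl' haa
          obtain ⟨m, hm, hm'⟩ := mem_image.1 hjl
          obtain ⟨m2, hm2, hm2'⟩ := mem_image.1 hjl'
          have e1 : c j = c i := (hlbc _ _ hm').symm.trans (mem_filter.1 hm).2
          have e2 : c j' = c i := (hlbc _ _ hm2').symm.trans (mem_filter.1 hm2).2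
          exact hlbn _ _ haa (e1.trans e2.symm))
      have hncr : ((vf K c (c i)).card : ℝ) * (B : ℝ) ^ ((3 : ℝ) / 4) ≤ (Q : ℝ) ^ (D + 2) * n :=
        not_lt.1 b5
      have hfin : (((E2.filter (fun k => c k = c i)).image (lbn K B g Q kk ll)).card : ℝ) ≤
          (Q : ℝ) ^ (CA * (g + (D + 1) + 1) + (D + 2)) := by
        have hnpos : (0 : ℝ) < n := by linarith
        rw [mul_div_assoc', div_le_iff₀ hT] at hlab
        have : (((E2.filter (fun k => c k = c i)).image (lbn K B g Q kk ll)).card : ℝ) * n ≤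
            (Q : ℝ) ^ (CA * (g + (D + 1) + 1) + (D + 2)) * n := by
          calc _ ≤ ((vf K c (c i)).card : ℝ) *
                ((Q : ℝ) ^ (CA * (g + (D + 1) + 1)) * (B : ℝ) ^ ((3 : ℝ) / 4)) := hlab
            _ = (Q : ℝ) ^ (CA * (g + (D + 1) + 1)) *
                (((vf K c (c i)).card : ℝ) * (B : ℝ) ^ ((3 : ℝ) / 4)) := by ring
            _ ≤ (Q : ℝ) ^ (CA * (g + (D + 1) + 1)) * ((Q : ℝ) ^ (D + 2) * n) :=
                mul_le_mul_of_nonneg_left hncr (by positivity)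
            _ = _ := by rw [pow_add]; ring
        exact le_of_mul_le_mul_right this hnpos
      have hfin' : ((E2.filter (fun k => c k = c i)).image (lbn K B g Q kk ll)).card ≤
          Q ^ (CA * (g + (D + 1) + 1) + (D + 2)) := by exact_mod_cast hfin
      refine le_trans hfin' (Nat.pow_le_pow_right hQ1 ?_)
      rw [hC0]
      nlinarith
  · intro i hi
    obtain ⟨a1, a2, _⟩ := hUdat i (mem_filter.1 hi).1
    obtain ⟨d1, d2, _⟩ := hdat i a1 a2
    exact ⟨hE1 d1, hE1 d2⟩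

end Pool.Agent.Work.MP_e17eac_co.AS2
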