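import Pool.Agent.Work.MP_e17eac_co.Bd.B14

/-!
# Arbitrary sets, block AS2, item One: labels on one side
-/

namespace Pool.Agent.Work.MP_e17eac_co.AS2

open Finset
open Pool.Agent.Work.MP_e17eac_co.DH
open Pool.Agent.Work.MP_e17eac_co.DH.XSWEEP (GP)
open Pool.Agent.Work.MP_e17eac_co.MX

namespace XOne

variable {ι : Type} [Fintype ι] [DecidableEq ι]

theorem tmono (K : KSys ι) {n k : ℕ} (h : n ≤ k) (hk : k < K.N) : K.t n ≤ K.t k := by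
  rcases h.eq_or_lt with rfl | h
  · exact le_rfl
  · exact (K.t_lt n k h hk).le

theorem ref_mc (h6 : StMc) (K : KSys ι) {M M' : ℕ} (hM : 0 < M) (hM' : 0 < M') (hd : M ∣ M')
    {n n' : ℕ} (h : mc K M' n = mc K M' n') : mc K M n = mc K M n' := by
  obtain ⟨k, rfl⟩ := hd
  have hk : 0 < k := Nat.pos_of_ne_zero (by rintro rfl; simp at hM')
  rw [← (h6 ι K M hM).2 k hk n, ← (h6 ι K M hM).2 k hk n', h]

theorem lohi_ref (h6 : StMc) (h7 : StLoHi) (K : KSys ι) {M M' : ℕ} (hM : 0 < M) (hM' : 0 < M')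
    (hd : M ∣ M') {n n' : ℕ} (hn : n < K.N) (hn' : n' < K.N) (h : mc K M n' = mc K M n) :
    lo (mc K M) n ≤ lo (mc K M') n' ∧ hi K (mc K M') n' ≤ hi K (mc K M) n := by
  have c1 := (h6 ι K M hM).1
  have c2 := (h6 ι K M' hM').1
  obtain ⟨a1, a2, a3, a4, a5, a6, a7, a8, a9⟩ := h7 ι K M _ c1 n hn
  obtain ⟨b1, b2, b3, b4, b5, b6, b7, b8, b9⟩ := h7 ι K M' _ c2 n' hn'
  constructor
  · exact ((a6 _ (b1.trans_lt hn')).1 ((ref_mc h6 K hM hM' hd b4).trans h)).1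
  · exact ((a6 _ b3).1 ((ref_mc h6 K hM hM' hd b5).trans h)).2

theorem lo_congr (c : ℕ → ℕ) {n n' : ℕ} (h : c n = c n') : lo c n = lo c n' := by
  unfold lo
  rw [h]

theorem hi_congr (K : KSys ι) (c : ℕ → ℕ) {n n' : ℕ} (h : c n = c n') : hi K c n = hi K c n' := by
  unfold hi
  rw [h]

/-- Positions of the indices of one level. -/
structure Fa (K : KSys ι) (B g Q : ℕ) (kk ll : ι → ℕ → ℕ) (n : ℕ) : Prop where
  a1 : k0 K B g Q kk n ≤ kk (K.a n) (mc K B n)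
  a2 : kk (K.a n) (mc K B n) ≤ hi K (mc K (B * Q ^ g)) (kk (K.a n) (mc K B n))
  a3 : hi K (mc K (B * Q ^ g)) (kk (K.a n) (mc K B n)) <
    lo (mc K (B * Q ^ g)) (ll (K.a n) (mc K B n))
  a4 : lo (mc K (B * Q ^ g)) (ll (K.a n) (mc K B n)) ≤ ll (K.a n) (mc K B n)
  a5 : ll (K.a n) (mc K B n) ≤ k1 K B g Q ll n
  a6 : k1 K B g Q ll n < K.N
  a7 : k0 K B g Q kk n ≤ n
  a8 : n ≤ k1 K B g Q ll n
  a9 : lo (mc K B) n ≤ k0 K B g Q kk n
  a10 : k1 K B g Q ll n ≤ hi K (mc K B) n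
  a11 : k0 K B g Q kk n ≤ lo (mc K (B * Q ^ g)) n
  a12 : hi K (mc K (B * Q ^ g)) n ≤ k1 K B g Q ll n

theorem fa (h6 : StMc) (h7 : StLoHi) (K : KSys ι) {B g Q A : ℕ} {E : Finset ℕ}
    {kk ll : ι → ℕ → ℕ} (hB : 0 < B) (hQ : 0 < Q) (hE : E ⊆ range K.N)
    (hL : Lev K B g Q A E kk ll) {n : ℕ} (hn : n ∈ E) : Fa K B g Q kk ll n := by
  have hnN : n < K.N := Finset.mem_range.1 (hE hn)
  have hBQ : 0 < B * Q ^ g := by positivity
  have P := hL.pd n hn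
  have c2 := (h6 ι K (B * Q ^ g) hBQ).1
  obtain ⟨b1, b2, b3, b4, b5, b6, b7, b8, _⟩ := h7 ι K _ _ c2 (kk (K.a n) (mc K B n)) P.kN
  obtain ⟨d1, d2, d3, d4, d5, d6, d7, d8, _⟩ := h7 ι K _ _ c2 (ll (K.a n) (mc K B n)) P.lN
  have e1 := lohi_ref h6 h7 K hB hBQ (Dvd.intro _ rfl) hnN P.kN P.ck
  have e2 := lohi_ref h6 h7 K hB hBQ (Dvd.intro _ rfl) hnN P.lN P.cl
  have a3 : hi K (mc K (B * Q ^ g)) (kk (K.a n) (mc K B n)) <
      lo (mc K (B * Q ^ g)) (ll (K.a n) (mc K B n)) := (d7 _ b3).1 (by rw [b5]; exact P.lt)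
  have a11 : lo (mc K (B * Q ^ g)) (kk (K.a n) (mc K B n)) ≤ lo (mc K (B * Q ^ g)) n ∧
      hi K (mc K (B * Q ^ g)) n ≤ hi K (mc K (B * Q ^ g)) (ll (K.a n) (mc K B n)) := by
    rcases hL.inn n hn with h | h
    · rw [lo_congr _ h, hi_congr K _ h]
      exact ⟨le_rfl, a3.le.trans (d1.trans d2)⟩
    · rw [lo_congr _ h, hi_congr K _ h]
      exact ⟨b1.trans (b2.trans a3.le), le_rfl⟩
  obtain ⟨f1, f2, _⟩ := h7 ι K _ _ c2 n hnN
  exact ⟨b1, b2, a3, d1, d2, d3, a11.1.trans f1, f2.trans a11.2, e1.1, e2.2, a11.1, a11.2⟩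

theorem label_eq (K : KSys ι) {B g Q : ℕ} {kk ll : ι → ℕ → ℕ} {i i' : ℕ}
    (h : lbn K B g Q kk ll i = lbn K B g Q kk ll i') :
    mc K B i = mc K B i' ∧
    mc K (B * Q ^ g) (kk (K.a i) (mc K B i)) = mc K (B * Q ^ g) (kk (K.a i') (mc K B i')) ∧
    mc K (B * Q ^ g) (ll (K.a i) (mc K B i)) = mc K (B * Q ^ g) (ll (K.a i') (mc K B i')) ∧
    ty K (K.a i) (k0 K B g Q kk i) (k1 K B g Q ll i) =
      ty K (K.a i') (k0 K B g Q kk i') (k1 K B g Q ll i') ∧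
    Int.log 2 (dln K B g Q kk ll i) = Int.log 2 (dln K B g Q kk ll i') := by
  unfold lbn lb psi at h
  simp only [Prod.mk.injEq] at h
  obtain ⟨⟨h1, h2, h3, h4⟩, h5⟩ := h
  exact ⟨h1, h2, h3, h4, h5⟩

theorem dlb_le (K : KSys ι) {B g Q : ℕ} {kk ll : ι → ℕ → ℕ} {i : ℕ}
    (h : 0 < dln K B g Q kk ll i) : dlb K B g Q kk ll i ≤ dln K B g Q kk ll i := by
  unfold dlb
  have := Int.zpow_log_le_self (b := 2) (by norm_num) h
  exact_mod_cast this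

theorem lt_dlb (K : KSys ι) {B g Q : ℕ} {kk ll : ι → ℕ → ℕ} {i : ℕ} :
    dln K B g Q kk ll i < 2 * dlb K B g Q kk ll i := by
  unfold dlb
  have h1 := Int.lt_zpow_succ_log_self (b := 2) (by norm_num) (dln K B g Q kk ll i)
  rw [zpow_add_one₀ (by norm_num)] at h1
  push_cast at h1
  linarith

theorem con (h5 : StCon) (h6 : StMc) (h7 : StLoHi) (K : KSys ι) {B g Q A : ℕ} {E : Finset ℕ}
    {kk ll : ι → ℕ → ℕ} (hB : 0 < B) (hQ : 0 < Q) (hE : E ⊆ range K.N)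
    (hL : Lev K B g Q A E kk ll) {i i' : ℕ} (hi0 : i ∈ E) (hi1 : i' ∈ E)
    (h : lbn K B g Q kk ll i = lbn K B g Q kk ll i') (s : ℝ)
    (hs : s = K.t (k0 K B g Q kk i) ∨ s = K.t (k1 K B g Q ll i)) :
    |K.ht (K.a i) s - K.ht (K.a i') s| ≤ 4 * Q * dlb K B g Q kk ll i := by
  obtain ⟨e1, e2, e3, e4, e5⟩ := label_eq K h
  have F := fa h6 h7 K hB hQ hE hL hi0
  have F' := fa h6 h7 K hB hQ hE hL hi1
  have P := hL.pd i hi0
  have P' := hL.pd i' hi1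
  have ek0 : k0 K B g Q kk i = k0 K B g Q kk i' := lo_congr _ e2
  have ek1 : k1 K B g Q ll i = k1 K B g Q ll i' := hi_congr K _ e3
  have eg0 : hi K (mc K (B * Q ^ g)) (kk (K.a i) (mc K B i)) =
    hi K (mc K (B * Q ^ g)) (kk (K.a i') (mc K B i')) := hi_congr K _ e2
  have eg1 : lo (mc K (B * Q ^ g)) (ll (K.a i) (mc K B i)) =
    lo (mc K (B * Q ^ g)) (ll (K.a i') (mc K B i')) := lo_congr _ e3
  have hlN := P.lN
  have hlN' := P'.lN
  have := h5 ι K (K.a i) (K.a i') (k0 K B g Q kk i) (k1 K B g Q ll i)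
    (kk (K.a i) (mc K B i)) (ll (K.a i) (mc K B i)) (kk (K.a i') (mc K B i'))
    (ll (K.a i') (mc K B i')) (K.t (hi K (mc K (B * Q ^ g)) (kk (K.a i) (mc K B i))))
    (K.t (lo (mc K (B * Q ^ g)) (ll (K.a i) (mc K B i)))) Q F.a6 P.kN P'.kN F.a1 (ek0 ▸ F'.a1) F.a5
    (ek1 ▸ F'.a5) P.ak P.al P'.ak P'.al
    (tmono K F.a2 (lt_of_lt_of_le F.a3 (F.a4.trans hlN.le)))
    (by
      rw [eg0]
      exact tmono K F'.a2 (lt_of_lt_of_le F'.a3 (F'.a4.trans hlN'.le)))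
    (K.t_lt _ _ F.a3 (F.a4.trans_lt hlN)) (tmono K F.a4 hlN)
    (by
      rw [eg1]
      exact tmono K F'.a4 hlN')
    P.good (by rw [e4, ek0, ek1]) s hs
  refine this.trans ?_
  have m1 : del K (K.a i) (k0 K B g Q kk i) (k1 K B g Q ll i) ≤ 2 * dlb K B g Q kk ll i :=
    (lt_dlb K (i := i)).le
  have m2 : del K (K.a i') (k0 K B g Q kk i) (k1 K B g Q ll i) ≤ 2 * dlb K B g Q kk ll i := by
    have e : dlb K B g Q kk ll i = dlb K B g Q kk ll i' := by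
      unfold dlb
      rw [e5]
    rw [e, ek0, ek1]
    exact (lt_dlb K (i := i')).le
  have m3 := max_le m1 m2
  have hQ0 : (0 : ℝ) ≤ 2 * Q := by positivity
  calc 2 * (Q : ℝ) * max (del K (K.a i) (k0 K B g Q kk i) (k1 K B g Q ll i))
        (del K (K.a i') (k0 K B g Q kk i) (k1 K B g Q ll i))
      ≤ 2 * Q * (2 * dlb K B g Q kk ll i) := mul_le_mul_of_nonneg_left m3 hQ0
    _ = 4 * Q * dlb K B g Q kk ll i := by ring

theorem clo (h4 : StClo) (h6 : StMc) (h7 : StLoHi) (K : KSys ι) {B g Q A : ℕ} {E : Finset ℕ}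
    {kk ll : ι → ℕ → ℕ} (hB : 0 < B) (hQ : 0 < Q) (hE : E ⊆ range K.N)
    (hL : Lev K B g Q A E kk ll) {i : ℕ} (hi0 : i ∈ E) (q : ι)
    (h0 : |K.ht q (K.t (k0 K B g Q kk i)) - K.ht (K.a i) (K.t (k0 K B g Q kk i))| <
      dlb K B g Q kk ll i)
    (h1 : |K.ht q (K.t (k1 K B g Q ll i)) - K.ht (K.a i) (K.t (k1 K B g Q ll i))| <
      dlb K B g Q kk ll i) : q ∈ vf K (mc K B) (mc K B i) := by
  have F := fa h6 h7 K hB hQ hE hL hi0
  have hle : dlb K B g Q kk ll i ≤ del K (K.a i) (k0 K B g Q kk i) (k1 K B g Q ll i) :=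
    dlb_le K (hL.pos i hi0)
  have h := h4 ι K (K.a i) q (k0 K B g Q kk i) (k1 K B g Q ll i) (F.a7.trans F.a8) F.a6
    (h0.trans_le hle) (h1.trans_le hle)
  have hiN : i < K.N := Finset.mem_range.1 (hE hi0)
  obtain ⟨_, _, _, _, _, b6, _⟩ := h7 ι K _ _ (h6 ι K B hB).1 i hiN
  have hsub : Ico (k0 K B g Q kk i) (k1 K B g Q ll i + 1) ⊆
      (range K.N).filter (fun n => mc K B n = mc K B i) := by
    intro n hn
    rw [Finset.mem_Ico] at hn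
    have hnN : n < K.N := by have := F.a6; omega
    exact Finset.mem_filter.2 ⟨Finset.mem_range.2 hnN,
      (b6 n hnN).2 ⟨F.a9.trans hn.1, (Nat.lt_succ_iff.1 hn.2).trans F.a10⟩⟩
  unfold vi KSys.lines at h
  unfold vf KSys.lines
  rw [Finset.mem_union] at h ⊢
  rcases h with h | h
  · exact Or.inl (Finset.image_subset_image hsub h)
  · exact Or.inr (Finset.image_subset_image hsub h)

theorem large (C η : ℝ) (hη : 0 < η) : ∃ n3 : ℕ, ∀ n : ℕ, n3 ≤ n → C ≤ (n : ℝ) ^ η := by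
  have h := (tendsto_rpow_atTop hη).comp tendsto_natCast_atTop_atTop
  have h2 := h.eventually_ge_atTop C
  obtain ⟨n3, hn3⟩ := Filter.eventually_atTop.1 h2
  exact ⟨n3, fun n hn => hn3 n hn⟩

end XOne

open Classical in
/-- **Labels on one side.** -/
theorem I_One (h1 : StLevs) (h2 : StStag) (h3 : StLong) (h4 : StClo) (h5 : StCon) (h6 : StMc)
    (h7 : StLoHi) (_h8 : StUD) : StOne := by
  intro m D g0
  obtain ⟨A1, g, hg, hlevs⟩ := h1 m D (g0 + 1)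
  obtain ⟨C0, hstag⟩ := h2
  refine ⟨A1 + 2 * (C0 * (A1 + (A1 + 1) + 1)) + 10, ?_⟩
  intro η hη
  obtain ⟨n1, hn1⟩ := hlevs η hη
  obtain ⟨n2, hn2⟩ := hstag η A1 (A1 + 1) hη
  obtain ⟨n3, hn3⟩ := XOne.large (100 * (m + 1)) η hη
  refine ⟨max n1 (max n2 (max n3 1)), ?_⟩
  intro ι _ _ K hinj hGP hcard Q gp hQ hN hA hsize E hE hED e he hroot lam hlen
  have hc1 : n1 ≤ Fintype.card ι := (le_max_left _ _).trans hcard
  have hc2 : n2 ≤ Fintype.card ι := ((le_max_left _ _).trans (le_max_right _ _)).trans hcard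
  have hc3 : n3 ≤ Fintype.card ι :=
    (((le_max_left _ _).trans (le_max_right _ _)).trans (le_max_right _ _)).trans hcard
  have hc4 : 1 ≤ Fintype.card ι :=
    (((le_max_right _ _).trans (le_max_right _ _)).trans (le_max_right _ _)).trans hcard
  -- `Q` is large
  have hQ100 : 100 * (m + 1) ≤ Q := by
    have h := (hn3 _ hc3).trans hQ
    exact_mod_cast h
  have hQ1 : 1 ≤ Q := by omega
  have hQr0 : 100 ≤ Q := le_trans (by omega) hQ100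
  have hQr : (100 : ℝ) ≤ Q := by exact_mod_cast hQr0
  have hQ0 : 0 < Q := hQ1
  set H := C0 * (A1 + (A1 + 1) + 1) with hH
  set A := A1 + 2 * H + 10 with hAdef
  -- number of edges
  have hnQN : Fintype.card ι ≤ Q * K.N := by
    have h : (Fintype.card ι : ℝ) ≤ (Fintype.card ι : ℝ) ^ ((4 : ℝ) / 3) := by
      have h1 : (1 : ℝ) ≤ (Fintype.card ι : ℝ) := by exact_mod_cast hc4
      calc (Fintype.card ι : ℝ) = (Fintype.card ι : ℝ) ^ (1 : ℝ) := (Real.rpow_one _).symm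
        _ ≤ _ := Real.rpow_le_rpow_of_exponent_le h1 (by norm_num)
    have h2 := h.trans hN
    exact_mod_cast h2
  have hrN : (Q ^ gp) ^ (4 * m) ≤ K.N := by
    have h : (Q ^ gp) ^ (4 * m) * Q ≤ K.N * Q := by
      calc (Q ^ gp) ^ (4 * m) * Q = (Q ^ gp) ^ (4 * m) * Q ^ 1 := by rw [pow_one]
        _ ≤ (Q ^ gp) ^ (4 * m) * Q ^ A :=
          Nat.mul_le_mul_left _ (Nat.pow_le_pow_right hQ0 (by omega))
        _ ≤ Fintype.card ι := hsize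
        _ ≤ Q * K.N := hnQN
        _ = K.N * Q := Nat.mul_comm _ _
    exact Nat.le_of_mul_le_mul_right h hQ0
  have hrx : ∀ x, x ≤ m → (Q ^ gp) ^ (4 * x) ≤ K.N := fun x hx =>
    (Nat.pow_le_pow_right (by positivity) (by omega)).trans hrN
  -- levels
  obtain ⟨E1, hE1E, kk, ll, hE1c, hlev⟩ := hn1 ι K hinj hGP hc1 Q gp hQ hN (by omega)
    ((Nat.mul_le_mul_left _ (Nat.pow_le_pow_right hQ0 (by omega))).trans hsize) E hE hED
  have hE1 : E1 ⊆ range K.N := hE1E.trans hE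
  have hBx : ∀ x, (Q ^ gp) ^ (4 * x) * Q ^ (4 * gp) = (Q ^ gp) ^ (4 * (x + 1)) := by
    intro x
    rw [← pow_mul, ← pow_mul, ← pow_add]
    congr 1
    ring
  have hrpos : ∀ x, 0 < (Q ^ gp) ^ (4 * x) := fun x => by positivity
  have hgA : ∀ x, g x ≤ gp := fun x => by have := (hg x).2; omega
  -- stagnation
  set t := gp - H with ht
  have htH : t + H ≤ gp := by omega
  have hst : ∀ x, x < m → Q ^ (A1 + 1) * (E1.filter (fun n => ¬ ((Q : ℝ) ^ t *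
      dlb K ((Q ^ gp) ^ (4 * (x + 1))) (g (x + 1)) Q (kk (x + 1)) (ll (x + 1)) n ≤
        8 * Q * dlb K ((Q ^ gp) ^ (4 * x)) (g x) Q (kk x) (ll x) n))).card ≤ K.N := by
    intro x hx
    have h := hn2 ι K hinj hGP hc2 Q hQ hN ((Q ^ gp) ^ (4 * x)) (g x) (g (x + 1)) gp t
      (hrpos x) ((hgA x).trans (by omega)) htH (by rw [hBx]; exact hrx (x + 1) hx) E1 hE1
      (kk x) (ll x) (kk (x + 1)) (ll (x + 1)) (hlev x hx.le).1
      (by rw [hBx]; exact (hlev (x + 1) hx).1)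
    rw [hBx] at h
    exact h
  -- facts
  have hfa : ∀ x, x ≤ m → ∀ n ∈ E1, XOne.Fa K ((Q ^ gp) ^ (4 * x)) (g x) Q (kk x) (ll x) n :=
    fun x hx n hn => XOne.fa h6 h7 K (hrpos x) hQ0 hE1 (hlev x hx).1 hn
  have hside : ∀ x, x ≤ m → ∀ n ∈ E1,
      K.t (lo (mc K (Q ^ g0)) e) ≤ K.t (k0 K ((Q ^ gp) ^ (4 * x)) (g x) Q (kk x) n) ∧
      K.t (k1 K ((Q ^ gp) ^ (4 * x)) (g x) Q (ll x) n) ≤ K.t (hi K (mc K (Q ^ g0)) e) := by
    intro x hx n hn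
    have F := hfa x hx n hn
    have P := (hlev x hx).1.pd n hn
    obtain ⟨hk, hl⟩ := (hlev x hx).2 n hn
    have hd : Q ^ g0 ∣ (Q ^ gp) ^ (4 * x) * Q ^ (g x) :=
      Dvd.dvd.mul_left (pow_dvd_pow Q (by have := (hg x).1; omega)) _
    have l1 := XOne.lohi_ref h6 h7 K (M := Q ^ g0) (M' := (Q ^ gp) ^ (4 * x) * Q ^ (g x))
      (by positivity) (by positivity) hd he P.kN (hroot _ hk)
    have l2 := XOne.lohi_ref h6 h7 K (M := Q ^ g0) (M' := (Q ^ gp) ^ (4 * x) * Q ^ (g x))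
      (by positivity) (by positivity) hd he P.lN (hroot _ hl)
    obtain ⟨_, _, e3, _⟩ := h7 ι K _ _ (h6 ι K (Q ^ g0) (by positivity)).1 e he
    refine ⟨XOne.tmono K l1.1 ?_, XOne.tmono K l2.2 e3⟩
    exact lt_of_le_of_lt F.a7 (Finset.mem_range.1 (hE1 hn))
  have hspan : ∀ x, x ≤ m → ∀ n ∈ E1,
      K.t (lo (mc K ((Q ^ gp) ^ (4 * x))) n) ≤ K.t (k0 K ((Q ^ gp) ^ (4 * x)) (g x) Q (kk x) n) ∧
      K.t (k1 K ((Q ^ gp) ^ (4 * x)) (g x) Q (ll x) n) ≤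
        K.t (hi K (mc K ((Q ^ gp) ^ (4 * x))) n) := by
    intro x hx n hn
    have F := hfa x hx n hn
    have hnN := Finset.mem_range.1 (hE1 hn)
    obtain ⟨_, _, e3, _⟩ := h7 ι K _ _ (h6 ι K ((Q ^ gp) ^ (4 * x)) (hrpos x)).1 n hnN
    exact ⟨XOne.tmono K F.a9 (lt_of_le_of_lt F.a7 hnN), XOne.tmono K F.a10 e3⟩
  have hmem : ∀ x, x ≤ m → ∀ n ∈ E1,
      K.t (k0 K ((Q ^ gp) ^ (4 * x)) (g x) Q (kk x) n) ≤ K.t n ∧
      K.t n ≤ K.t (k1 K ((Q ^ gp) ^ (4 * x)) (g x) Q (ll x) n) ∧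
      K.t (k0 K ((Q ^ gp) ^ (4 * x)) (g x) Q (kk x) n) <
        K.t (k1 K ((Q ^ gp) ^ (4 * x)) (g x) Q (ll x) n) := by
    intro x hx n hn
    have F := hfa x hx n hn
    have hnN := Finset.mem_range.1 (hE1 hn)
    refine ⟨XOne.tmono K F.a7 hnN, XOne.tmono K F.a8 F.a6, K.t_lt _ _ ?_ F.a6⟩
    exact lt_of_le_of_lt (F.a1.trans F.a2) (lt_of_lt_of_le F.a3 (F.a4.trans F.a5))
  -- long hulls
  have hlong : ∀ x, x ≤ m → Q ^ gp * (E1.filter (fun n => ((Q ^ gp : ℕ) : ℝ) * lam <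
      (((Q ^ gp) ^ (4 * x) : ℕ) : ℝ) * (K.t (k1 K ((Q ^ gp) ^ (4 * x)) (g x) Q (ll x) n) -
        K.t (k0 K ((Q ^ gp) ^ (4 * x)) (g x) Q (kk x) n)))).card ≤ 3 * K.N := by
    intro x hx
    exact h3 ι K (mc K ((Q ^ gp) ^ (4 * x))) ((Q ^ gp) ^ (4 * x)) (Q ^ gp)
      (K.t (lo (mc K (Q ^ g0)) e)) (K.t (hi K (mc K (Q ^ g0)) e)) lam
      (fun n => K.t (k0 K ((Q ^ gp) ^ (4 * x)) (g x) Q (kk x) n))
      (fun n => K.t (k1 K ((Q ^ gp) ^ (4 * x)) (g x) Q (ll x) n))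
      (h6 ι K _ (hrpos x)).1 (hrpos x) (hrx x hx) (Nat.one_le_pow _ _ hQ0) hlen E1 hE1
      (fun n hn => ⟨(hspan x hx n hn).1, (hmem x hx n hn).2.2.le, (hspan x hx n hn).2,
        (hside x hx n hn).1, (hside x hx n hn).2⟩)
  -- the set `E'`
  set E' := E1.filter (fun n => (∀ x, x < m → (Q : ℝ) ^ t *
      dlb K ((Q ^ gp) ^ (4 * (x + 1))) (g (x + 1)) Q (kk (x + 1)) (ll (x + 1)) n ≤
        8 * Q * dlb K ((Q ^ gp) ^ (4 * x)) (g x) Q (kk x) (ll x) n) ∧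
      (∀ x, x ≤ m → (((Q ^ gp) ^ (4 * x) : ℕ) : ℝ) *
        (K.t (k1 K ((Q ^ gp) ^ (4 * x)) (g x) Q (ll x) n) -
        K.t (k0 K ((Q ^ gp) ^ (4 * x)) (g x) Q (kk x) n)) ≤ ((Q ^ gp : ℕ) : ℝ) * lam)) with hE'
  have hE'1 : E' ⊆ E1 := Finset.filter_subset _ _
  have hcardE' : K.N ≤ Q ^ (A1 + 1) * E'.card := by
    have hcov : E1 ⊆ E' ∪ ((range m).biUnion (fun x => E1.filter (fun n => ¬ ((Q : ℝ) ^ t *
      dlb K ((Q ^ gp) ^ (4 * (x + 1))) (g (x + 1)) Q (kk (x + 1)) (ll (x + 1)) n ≤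
        8 * Q * dlb K ((Q ^ gp) ^ (4 * x)) (g x) Q (kk x) (ll x) n))) ∪
        (range (m + 1)).biUnion (fun x => E1.filter (fun n => ((Q ^ gp : ℕ) : ℝ) * lam <
      (((Q ^ gp) ^ (4 * x) : ℕ) : ℝ) * (K.t (k1 K ((Q ^ gp) ^ (4 * x)) (g x) Q (ll x) n) -
        K.t (k0 K ((Q ^ gp) ^ (4 * x)) (g x) Q (kk x) n))))) := by
      intro n hn
      by_cases hc : n ∈ E'
      · exact Finset.mem_union_left _ hc
      · apply Finset.mem_union_right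
        rw [hE', Finset.mem_filter] at hc
        by_cases h1 : ∀ x, x < m → (Q : ℝ) ^ t *
            dlb K ((Q ^ gp) ^ (4 * (x + 1))) (g (x + 1)) Q (kk (x + 1)) (ll (x + 1)) n ≤
              8 * Q * dlb K ((Q ^ gp) ^ (4 * x)) (g x) Q (kk x) (ll x) n
        · have h2 : ∃ x, x ≤ m ∧ ((Q ^ gp : ℕ) : ℝ) * lam < (((Q ^ gp) ^ (4 * x) : ℕ) : ℝ) *
              (K.t (k1 K ((Q ^ gp) ^ (4 * x)) (g x) Q (ll x) n) -
              K.t (k0 K ((Q ^ gp) ^ (4 * x)) (g x) Q (kk x) n)) := by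
            by_contra hcon
            push Not at hcon
            exact hc ⟨hn, h1, hcon⟩
          obtain ⟨x, hx, hx2⟩ := h2
          apply Finset.mem_union_right
          exact Finset.mem_biUnion.2 ⟨x, Finset.mem_range.2 (by omega),
            Finset.mem_filter.2 ⟨hn, hx2⟩⟩
        · push Not at h1
          obtain ⟨x, hx, hx2⟩ := h1
          apply Finset.mem_union_left
          exact Finset.mem_biUnion.2 ⟨x, Finset.mem_range.2 hx,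
            Finset.mem_filter.2 ⟨hn, not_le.2 hx2⟩⟩
    have hc := Finset.card_le_card hcov
    have hu1 := Finset.card_union_le E' ((range m).biUnion (fun x => E1.filter (fun n => ¬ ((Q : ℝ) ^ t *
      dlb K ((Q ^ gp) ^ (4 * (x + 1))) (g (x + 1)) Q (kk (x + 1)) (ll (x + 1)) n ≤
        8 * Q * dlb K ((Q ^ gp) ^ (4 * x)) (g x) Q (kk x) (ll x) n))) ∪
        (range (m + 1)).biUnion (fun x => E1.filter (fun n => ((Q ^ gp : ℕ) : ℝ) * lam <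
      (((Q ^ gp) ^ (4 * x) : ℕ) : ℝ) * (K.t (k1 K ((Q ^ gp) ^ (4 * x)) (g x) Q (ll x) n) -
        K.t (k0 K ((Q ^ gp) ^ (4 * x)) (g x) Q (kk x) n)))))
    have hu2 := Finset.card_union_le ((range m).biUnion (fun x => E1.filter (fun n => ¬ ((Q : ℝ) ^ t *
      dlb K ((Q ^ gp) ^ (4 * (x + 1))) (g (x + 1)) Q (kk (x + 1)) (ll (x + 1)) n ≤
        8 * Q * dlb K ((Q ^ gp) ^ (4 * x)) (g x) Q (kk x) (ll x) n))))
        ((range (m + 1)).biUnion (fun x => E1.filter (fun n => ((Q ^ gp : ℕ) : ℝ) * lam <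
      (((Q ^ gp) ^ (4 * x) : ℕ) : ℝ) * (K.t (k1 K ((Q ^ gp) ^ (4 * x)) (g x) Q (ll x) n) -
        K.t (k0 K ((Q ^ gp) ^ (4 * x)) (g x) Q (kk x) n)))))
    set U1 := (range m).biUnion (fun x => E1.filter (fun n => ¬ ((Q : ℝ) ^ t *
      dlb K ((Q ^ gp) ^ (4 * (x + 1))) (g (x + 1)) Q (kk (x + 1)) (ll (x + 1)) n ≤
        8 * Q * dlb K ((Q ^ gp) ^ (4 * x)) (g x) Q (kk x) (ll x) n))) with hU1
    set U2 := (range (m + 1)).biUnion (fun x => E1.filter (fun n => ((Q ^ gp : ℕ) : ℝ) * lam <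
      (((Q ^ gp) ^ (4 * x) : ℕ) : ℝ) * (K.t (k1 K ((Q ^ gp) ^ (4 * x)) (g x) Q (ll x) n) -
        K.t (k0 K ((Q ^ gp) ^ (4 * x)) (g x) Q (kk x) n)))) with hU2
    have b1 : Q ^ (A1 + 1) * U1.card ≤ m * K.N := by
      calc Q ^ (A1 + 1) * U1.card ≤ Q ^ (A1 + 1) * ∑ x ∈ range m, (E1.filter (fun n => ¬ ((Q : ℝ) ^ t *
          dlb K ((Q ^ gp) ^ (4 * (x + 1))) (g (x + 1)) Q (kk (x + 1)) (ll (x + 1)) n ≤
          8 * Q * dlb K ((Q ^ gp) ^ (4 * x)) (g x) Q (kk x) (ll x) n))).card :=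
            Nat.mul_le_mul_left _ Finset.card_biUnion_le
        _ = ∑ x ∈ range m, Q ^ (A1 + 1) * (E1.filter (fun n => ¬ ((Q : ℝ) ^ t *
          dlb K ((Q ^ gp) ^ (4 * (x + 1))) (g (x + 1)) Q (kk (x + 1)) (ll (x + 1)) n ≤
          8 * Q * dlb K ((Q ^ gp) ^ (4 * x)) (g x) Q (kk x) (ll x) n))).card :=
            Finset.mul_sum _ _ _
        _ ≤ ∑ x ∈ range m, K.N := Finset.sum_le_sum (fun x hx => hst x (Finset.mem_range.1 hx))
        _ = m * K.N := by rw [Finset.sum_const, Finset.card_range, smul_eq_mul]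
    have b2 : Q ^ (A1 + 1) * U2.card ≤ (m + 1) * (3 * K.N) := by
      calc Q ^ (A1 + 1) * U2.card ≤ Q ^ gp * U2.card :=
            Nat.mul_le_mul_right _ (Nat.pow_le_pow_right hQ0 (by omega))
        _ ≤ Q ^ gp * ∑ x ∈ range (m + 1), (E1.filter (fun n => ((Q ^ gp : ℕ) : ℝ) * lam <
          (((Q ^ gp) ^ (4 * x) : ℕ) : ℝ) * (K.t (k1 K ((Q ^ gp) ^ (4 * x)) (g x) Q (ll x) n) -
          K.t (k0 K ((Q ^ gp) ^ (4 * x)) (g x) Q (kk x) n)))).card :=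
            Nat.mul_le_mul_left _ Finset.card_biUnion_le
        _ = ∑ x ∈ range (m + 1), Q ^ gp * (E1.filter (fun n => ((Q ^ gp : ℕ) : ℝ) * lam <
          (((Q ^ gp) ^ (4 * x) : ℕ) : ℝ) * (K.t (k1 K ((Q ^ gp) ^ (4 * x)) (g x) Q (ll x) n) -
          K.t (k0 K ((Q ^ gp) ^ (4 * x)) (g x) Q (kk x) n)))).card := Finset.mul_sum _ _ _
        _ ≤ ∑ x ∈ range (m + 1), 3 * K.N :=
          Finset.sum_le_sum (fun x hx => hlong x (by have := Finset.mem_range.1 hx; omega))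
        _ = (m + 1) * (3 * K.N) := by rw [Finset.sum_const, Finset.card_range, smul_eq_mul]
    have b3 : E1.card ≤ E'.card + (U1.card + U2.card) := by omega
    have b4 : K.N * Q ≤ Q ^ (A1 + 1) * E'.card + (m * K.N + (m + 1) * (3 * K.N)) := by
      calc K.N * Q ≤ (Q ^ A1 * E1.card) * Q := Nat.mul_le_mul_right _ hE1c
        _ = Q ^ (A1 + 1) * E1.card := by ring
        _ ≤ Q ^ (A1 + 1) * (E'.card + (U1.card + U2.card)) := Nat.mul_le_mul_left _ b3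
        _ = Q ^ (A1 + 1) * E'.card + (Q ^ (A1 + 1) * U1.card + Q ^ (A1 + 1) * U2.card) := by ring
        _ ≤ _ := Nat.add_le_add_left (Nat.add_le_add b1 b2) _
    have b5 : K.N * (100 * (m + 1)) ≤ K.N * Q := Nat.mul_le_mul_left _ hQ100
    nlinarith
  have h8Q : ∀ u v : ℝ, 0 < u → 0 < v → (Q : ℝ) ^ t * v ≤ 8 * Q * u →
      (Q : ℝ) ^ (t - 2) * v ≤ u := by
    intro u v hu hv huv
    have e1 : (Q : ℝ) ^ t = (Q : ℝ) ^ (t - 2) * (Q : ℝ) ^ 2 := by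
      rw [← pow_add]
      congr 1
      omega
    rw [e1] at huv
    have h2 : ((Q : ℝ) ^ (t - 2) * v) * (8 * Q) ≤ u * (8 * Q) := by
      have h3 : 8 * (Q : ℝ) ≤ (Q : ℝ) ^ 2 := by nlinarith
      have h4 : 0 ≤ (Q : ℝ) ^ (t - 2) * v := by positivity
      nlinarith
    exact le_of_mul_le_mul_right h2 (by positivity)
  have hdpos : ∀ x n, 0 < dlb K ((Q ^ gp) ^ (4 * x)) (g x) Q (kk x) (ll x) n := fun x n => by
    unfold dlb
    positivity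
  have hstep : ∀ x, x < m → ∀ n ∈ E', (Q : ℝ) ^ (t - 2) *
      dlb K ((Q ^ gp) ^ (4 * (x + 1))) (g (x + 1)) Q (kk (x + 1)) (ll (x + 1)) n ≤
        dlb K ((Q ^ gp) ^ (4 * x)) (g x) Q (kk x) (ll x) n := fun x hx n hn =>
    h8Q _ _ (hdpos x n) (hdpos (x + 1) n) ((Finset.mem_filter.1 hn).2.1 x hx)
  have hQge : (1 : ℝ) ≤ Q := by exact_mod_cast hQ1
  refine ⟨E', hE'1.trans hE1E, fun x n => lbn K ((Q ^ gp) ^ (4 * x)) (g x) Q (kk x) (ll x) n,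
    fun x n => K.t (k0 K ((Q ^ gp) ^ (4 * x)) (g x) Q (kk x) n),
    fun x n => K.t (k1 K ((Q ^ gp) ^ (4 * x)) (g x) Q (ll x) n),
    fun x n => dlb K ((Q ^ gp) ^ (4 * x)) (g x) Q (kk x) (ll x) n,
    hcardE'.trans (Nat.mul_le_mul_right _ (Nat.pow_le_pow_right hQ0 (by omega))), ?_⟩
  refine ⟨?_, ?_, ?_, ?_, ?_, ?_, ?_, ?_, ?_, ?_, ?_, ?_, ?_, ?_⟩
  · intro i hi
    exact Finset.mem_range.1 (hE1 (hE'1 hi))
  · intro x hx i hi i' hi' h
    obtain ⟨e1, e2, e3, e4, e5⟩ := XOne.label_eq K h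
    refine ⟨e1, ?_, ?_, ?_⟩
    · exact congrArg K.t (XOne.lo_congr _ e2)
    · exact congrArg K.t (XOne.hi_congr K _ e3)
    · show dlb _ _ _ _ _ _ _ = dlb _ _ _ _ _ _ _
      unfold dlb
      rw [e5]
  · intro x hx i hi i' hi' h1 h2
    show lbn _ _ _ _ _ _ _ = lbn _ _ _ _ _ _ _
    unfold lbn
    rw [h1, h2]
  · intro x hx i hi
    have h := (hlev x hx).1.cnt i (hE'1 hi)
    have h2 : ((E'.filter (fun k => mc K ((Q ^ gp) ^ (4 * x)) k =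
        mc K ((Q ^ gp) ^ (4 * x)) i)).image
          (fun n => lbn K ((Q ^ gp) ^ (4 * x)) (g x) Q (kk x) (ll x) n)).card ≤ Q ^ A1 :=
      (Finset.card_le_card (Finset.image_subset_image
        (Finset.filter_subset_filter _ hE'1))).trans h
    have h3 : Q ^ A1 ≤ Q ^ A := Nat.pow_le_pow_right hQ0 (by omega)
    exact_mod_cast h2.trans h3
  · intro x hx i hi
    exact hmem x hx i (hE'1 hi)
  · intro x hx i hi
    exact hspan x hx i (hE'1 hi)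
  · intro x hx i hi
    have F := hfa x hx.le i (hE'1 hi)
    have F' := hfa (x + 1) hx i (hE'1 hi)
    have hiN : i < K.N := Finset.mem_range.1 (hE1 (hE'1 hi))
    have hd : (Q ^ gp) ^ (4 * x) * Q ^ (g x) ∣ (Q ^ gp) ^ (4 * (x + 1)) := by
      rw [← hBx]
      exact Nat.mul_dvd_mul_left _ (pow_dvd_pow Q ((hgA x).trans (by omega)))
    have l := XOne.lohi_ref h6 h7 K (M := (Q ^ gp) ^ (4 * x) * Q ^ (g x))
      (M' := (Q ^ gp) ^ (4 * (x + 1))) (by positivity) (by positivity) hd hiN hiN rfl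
    exact ⟨XOne.tmono K (F.a11.trans (l.1.trans F'.a9)) (lt_of_le_of_lt F'.a7 hiN),
      XOne.tmono K (F'.a10.trans (l.2.trans F.a12)) F.a6⟩
  · intro x hx i hi q h0 h1
    exact XOne.clo h4 h6 h7 K (hrpos x) hQ0 hE1 (hlev x hx).1 (hE'1 hi) q h0 h1
  · intro x hx i hi i' hi' h
    have h4Q : 4 * (Q : ℝ) ≤ (Q : ℝ) ^ A := by
      have e1 : (Q : ℝ) ^ A = (Q : ℝ) ^ (A - 2) * (Q : ℝ) ^ 2 := by
        rw [← pow_add]
        congr 1
      rw [e1]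
      have e2 : (1 : ℝ) ≤ (Q : ℝ) ^ (A - 2) := one_le_pow₀ hQge
      have e3 : 4 * (Q : ℝ) ≤ (Q : ℝ) ^ 2 := by nlinarith
      have e4 : (0 : ℝ) ≤ (Q : ℝ) ^ 2 := by positivity
      nlinarith
    have hd := (hdpos x i).le
    have hh := mul_le_mul_of_nonneg_right h4Q hd
    exact ⟨(XOne.con h5 h6 h7 K (hrpos x) hQ0 hE1 (hlev x hx).1 (hE'1 hi) (hE'1 hi') h _
      (Or.inl rfl)).trans hh, (XOne.con h5 h6 h7 K (hrpos x) hQ0 hE1 (hlev x hx).1 (hE'1 hi)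
      (hE'1 hi') h _ (Or.inr rfl)).trans hh⟩
  · intro x hx i hi
    exact hdpos x i
  · intro x hx i hi
    have h := hstep x hx i hi
    have h1 : (1 : ℝ) ≤ (Q : ℝ) ^ (t - 2) := one_le_pow₀ hQge
    have h2 := mul_le_mul_of_nonneg_right h1 (hdpos (x + 1) i).le
    rw [one_mul] at h2
    exact h2.trans h
  · intro x hx i hi
    have s1 := hstep x (by omega) i hi
    have s2 := hstep (x + 1) (by omega) i hi
    have s3 := hstep (x + 2) (by omega) i hi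
    have hp : (0 : ℝ) ≤ (Q : ℝ) ^ (t - 2) := by positivity
    have s4 := mul_le_mul_of_nonneg_left s3 hp
    have s5 := mul_le_mul_of_nonneg_left (s4.trans s2) hp
    have s6 := s5.trans s1
    have e1 : (Q : ℝ) ^ gp ≤ (Q : ℝ) ^ (t - 2) * ((Q : ℝ) ^ (t - 2) * (Q : ℝ) ^ (t - 2)) := by
      rw [← pow_add, ← pow_add]
      exact pow_le_pow_right₀ hQge (by omega)
    have e2 := mul_le_mul_of_nonneg_right e1 (hdpos (x + 3) i).le
    push_cast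
    refine e2.trans (le_trans (le_of_eq ?_) s6)
    ring
  · intro x hx i hi
    have h := (Finset.mem_filter.1 hi).2.2 x hx
    have e : (((Q ^ gp) ^ (4 * x) : ℕ) : ℝ) = (((Q ^ gp : ℕ) : ℝ)) ^ (4 * x) := by push_cast; rfl
    rw [e] at h
    exact h
  · intro x hx i hi
    exact hside x hx i (hE'1 hi)

end Pool.Agent.Work.MP_e17eac_co.AS2
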